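import Mathlib

set_option autoImplicit false

namespace Pool.Agent.H249Z.Boundary

open Finset Matrix

variable {n : ℕ}

abbrev Ch (n : ℕ) := Finset (Fin n) → ℝ

/-- The sign of a vertex in a face. -/
noncomputable def sg (v : Fin n) (s : Finset (Fin n)) : ℝ :=
  (-1 : ℝ) ^ (Finset.filter (fun w => w < v) s).card

theorem sg_sq (v : Fin n) (s : Finset (Fin n)) : sg v s * sg v s = 1 := by
  rw [sg, ← mul_pow]; simp

theorem sg_insert (u v : Fin n) (s : Finset (Fin n)) (hu : u ∉ s) :
    sg v (insert u s) = if u < v then -sg v s else sg v s := by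
  unfold sg
  rw [Finset.filter_insert]
  split_ifs with h
  · rw [Finset.card_insert_of_notMem (fun h' => hu (Finset.mem_filter.1 h').1), pow_succ]
    ring
  · rfl

theorem sg_insert_self (v : Fin n) (s : Finset (Fin n)) : sg v (insert v s) = sg v s := by
  unfold sg
  rw [Finset.filter_insert, if_neg (lt_irrefl v)]

theorem sg_erase_self (v : Fin n) (s : Finset (Fin n)) (h : v ∈ s) :
    sg v (s.erase v) = sg v s := by
  conv_rhs => rw [← Finset.insert_erase h]
  rw [sg_insert_self]

/-- Contraction with a vertex. -/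
noncomputable def a (v : Fin n) : Ch n →ₗ[ℝ] Ch n where
  toFun x t := if v ∈ t then 0 else sg v t * x (insert v t)
  map_add' x y := by
    funext t
    simp only [Pi.add_apply]
    split_ifs <;> ring
  map_smul' c x := by
    funext t
    simp only [Pi.smul_apply, smul_eq_mul, RingHom.id_apply]
    split_ifs <;> ring

/-- Wedge with a vertex. -/
noncomputable def ad (v : Fin n) : Ch n →ₗ[ℝ] Ch n where
  toFun y s := if v ∈ s then sg v s * y (s.erase v) else 0
  map_add' x y := by
    funext t
    simp only [Pi.add_apply]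
    split_ifs <;> ring
  map_smul' c x := by
    funext t
    simp only [Pi.smul_apply, smul_eq_mul, RingHom.id_apply]
    split_ifs <;> ring

theorem a_apply (v : Fin n) (x : Ch n) (t : Finset (Fin n)) :
    a v x t = if v ∈ t then 0 else sg v t * x (insert v t) := rfl

theorem ad_apply (v : Fin n) (y : Ch n) (s : Finset (Fin n)) :
    ad v y s = if v ∈ s then sg v s * y (s.erase v) else 0 := rfl

theorem reindex (v : Fin n) (g : Finset (Fin n) → Finset (Fin n) → ℝ) :
    ∑ t, (if v ∈ t then 0 else g t (insert v t)) =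
      ∑ s, (if v ∈ s then g (s.erase v) s else 0) := by
  let f : Finset (Fin n) → Finset (Fin n) := fun s => if v ∈ s then s.erase v else insert v s
  have hf : Function.Involutive f := by
    intro s
    by_cases h : v ∈ s
    · simp [f, h, Finset.insert_erase h]
    · simp [f, h]
  refine Fintype.sum_equiv hf.toPerm _ _ fun t => ?_
  by_cases h : v ∈ t
  · simp [f, h]
  · simp [f, h]

theorem adj (v : Fin n) (x y : Ch n) : a v x ⬝ᵥ y = x ⬝ᵥ ad v y := by
  have := reindex v (fun t s => sg v t * x s * y t)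
  simp only [dotProduct, a_apply, ad_apply]
  calc _ = ∑ t, (if v ∈ t then 0 else sg v t * x (insert v t) * y t) :=
        Finset.sum_congr rfl fun t _ => by split_ifs <;> ring
    _ = _ := this
    _ = _ := Finset.sum_congr rfl fun s _ => by
        split_ifs with h
        · rw [sg_erase_self v s h]; ring
        · ring

theorem anti (u v : Fin n) (x : Ch n) : a u (a v x) + a v (a u x) = 0 := by
  funext t
  simp only [Pi.add_apply, a_apply, Pi.zero_apply, Finset.mem_insert]
  by_cases huv : u = v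
  · subst huv; simp
  have hvu : ¬ v = u := fun h => huv h.symm
  by_cases hu : u ∈ t
  · simp [hu]
  by_cases hv : v ∈ t
  · simp [hv]
  simp only [hu, hv, huv, hvu, or_self, if_false]
  rw [sg_insert u v t hu, sg_insert v u t hv, Finset.insert_comm]
  rcases lt_or_gt_of_ne huv with h | h
  · rw [if_pos h, if_neg (not_lt.2 h.le)]; ring
  · rw [if_pos h, if_neg (not_lt.2 h.le)]; ring

theorem car (u v : Fin n) (x : Ch n) :
    ad u (a v x) + a v (ad u x) = if u = v then x else 0 := by
  funext s
  simp only [Pi.add_apply, a_apply, ad_apply]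
  by_cases huv : u = v
  · subst huv
    by_cases h : u ∈ s
    · simp only [h, if_true, Finset.notMem_erase, if_false, add_zero]
      rw [sg_erase_self u s h, Finset.insert_erase h, ← mul_assoc, sg_sq, one_mul]
    · simp only [h, if_true, if_false, Finset.mem_insert_self, zero_add]
      rw [sg_insert_self, Finset.erase_insert h, ← mul_assoc, sg_sq, one_mul]
  have hvu : ¬ v = u := fun h => huv h.symm
  simp only [huv, if_false, Pi.zero_apply, Finset.mem_insert, false_or, Finset.mem_erase, ne_eq,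
    hvu, not_false_eq_true, true_and]
  by_cases hu : u ∈ s
  · by_cases hv : v ∈ s
    · simp [hv]
    · simp only [hu, hv, if_true, if_false]
      have h1 : sg v s = if u < v then -sg v (s.erase u) else sg v (s.erase u) := by
        conv_lhs => rw [← Finset.insert_erase hu]
        exact sg_insert u v _ (Finset.notMem_erase u s)
      rw [sg_insert v u s hv, h1, Finset.erase_insert_of_ne hvu]
      rcases lt_or_gt_of_ne huv with h | h
      · rw [if_pos h, if_neg (not_lt.2 h.le)]; ring
      · rw [if_pos h, if_neg (not_lt.2 h.le)]; ring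
  · simp [hu]

/-- The boundary map of the full simplex. -/
noncomputable def B : Ch n →ₗ[ℝ] Ch n := ∑ v, a v

/-- The coboundary map of the full simplex. -/
noncomputable def Bt : Ch n →ₗ[ℝ] Ch n := ∑ v, ad v

theorem B_apply (x : Ch n) : B x = ∑ v, a v x := by simp [B, LinearMap.sum_apply]

theorem Bt_apply (x : Ch n) : Bt x = ∑ v, ad v x := by simp [Bt, LinearMap.sum_apply]

theorem B_adj (x y : Ch n) : B x ⬝ᵥ y = x ⬝ᵥ Bt y := by
  rw [B_apply, Bt_apply, sum_dotProduct, dotProduct_sum]
  exact Finset.sum_congr rfl fun v _ => adj v x y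

theorem B_a (v : Fin n) (x : Ch n) : B (a v x) = -a v (B x) := by
  rw [B_apply, B_apply, map_sum, ← Finset.sum_neg_distrib]
  exact Finset.sum_congr rfl fun u _ => eq_neg_of_add_eq_zero_left (anti u v x)

theorem B_B (x : Ch n) : B (B x) = 0 := by
  have h : B (B x) = -B (B x) := by
    conv_lhs => rw [B_apply x, map_sum]
    conv_rhs => rw [B_apply (B x), ← Finset.sum_neg_distrib]
    exact Finset.sum_congr rfl fun v _ => B_a v x
  funext t
  have := congrFun h t
  simp only [Pi.neg_apply] at this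
  simp only [Pi.zero_apply]
  linarith

theorem Bt_a (v : Fin n) (x : Ch n) : Bt (a v x) = x - a v (Bt x) := by
  rw [eq_sub_iff_add_eq, Bt_apply, Bt_apply, map_sum, ← Finset.sum_add_distrib,
    Finset.sum_congr rfl fun u _ => car u v x]
  simp

theorem energy (x : Ch n) : B x ⬝ᵥ B x + Bt x ⬝ᵥ Bt x = n * (x ⬝ᵥ x) := by
  have h1 : Bt (B x) = (n : ℝ) • x - B (Bt x) := by
    conv_lhs => rw [B_apply x, map_sum]
    rw [Finset.sum_congr rfl fun v _ => Bt_a v x, Finset.sum_sub_distrib, ← B_apply]
    congr 1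
    simp [Nat.cast_smul_eq_nsmul]
  rw [B_adj, h1, dotProduct_sub, dotProduct_smul, dotProduct_comm x (B _), B_adj]
  simp

/-- Restriction to a set of faces. -/
noncomputable def P (p : Finset (Fin n) → Prop) [DecidablePred p] : Ch n →ₗ[ℝ] Ch n where
  toFun x s := if p s then x s else 0
  map_add' x y := by
    funext t
    simp only [Pi.add_apply]
    split_ifs <;> ring
  map_smul' c x := by
    funext t
    simp only [Pi.smul_apply, smul_eq_mul, RingHom.id_apply]
    split_ifs <;> ring

theorem P_apply (p : Finset (Fin n) → Prop) [DecidablePred p] (x : Ch n) (s : Finset (Fin n)) :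
    P p x s = if p s then x s else 0 := rfl

theorem P_adj (p : Finset (Fin n) → Prop) [DecidablePred p] (x y : Ch n) :
    P p x ⬝ᵥ y = x ⬝ᵥ P p y := by
  simp only [dotProduct, P_apply]
  exact Finset.sum_congr rfl fun s _ => by split_ifs <;> ring

theorem P_of_supp (p : Finset (Fin n) → Prop) [DecidablePred p] (x : Ch n)
    (h : ∀ s, ¬ p s → x s = 0) : P p x = x := by
  funext s
  rw [P_apply]
  split_ifs with hs
  · rfl
  · exact (h s hs).symm

theorem P_le (p : Finset (Fin n) → Prop) [DecidablePred p] (x : Ch n) :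
    P p x ⬝ᵥ P p x ≤ x ⬝ᵥ x := by
  simp only [dotProduct, P_apply]
  refine Finset.sum_le_sum fun s _ => ?_
  split_ifs
  · exact le_rfl
  · simpa using mul_self_nonneg (x s)

theorem norm_Pa (p : Finset (Fin n) → Prop) [DecidablePred p] (v : Fin n) (w : Ch n) :
    P p (a v w) ⬝ᵥ P p (a v w) =
      ∑ s, (if v ∈ s then (if p (s.erase v) then w s * w s else 0) else 0) := by
  rw [← reindex v (fun t s => if p t then w s * w s else 0)]
  simp only [dotProduct, P_apply, a_apply]
  refine Finset.sum_congr rfl fun t _ => ?_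
  split_ifs
  · ring
  · linear_combination (w (insert v t) * w (insert v t)) * sg_sq v t
  · ring
  · ring

theorem number (m : ℕ) (w : Ch n) (h : ∀ s, s.card ≠ m → w s = 0) :
    ∑ v, a v w ⬝ᵥ a v w = m * (w ⬝ᵥ w) := by
  have h1 : ∀ v, a v w ⬝ᵥ a v w = ∑ s, (if v ∈ s then w s * w s else 0) := by
    intro v
    have := norm_Pa (fun _ => True) v w
    rw [P_of_supp _ _ (fun s hs => absurd trivial hs)] at this
    simpa using this
  rw [Finset.sum_congr rfl fun v _ => h1 v, Finset.sum_comm, dotProduct, Finset.mul_sum]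
  refine Finset.sum_congr rfl fun s _ => ?_
  rw [← Finset.sum_filter]
  simp only [Finset.filter_mem_eq_inter, Finset.univ_inter, Finset.sum_const, nsmul_eq_mul]
  by_cases hs : s.card = m
  · rw [hs]
  · rw [h s hs]; ring

theorem key (p : Finset (Fin n) → Prop) [DecidablePred p] (x : Ch n)
    (h : ∀ s, ¬ p s → x s = 0) :
    B x ⬝ᵥ B x ≤ ∑ v, P p (Bt (a v x)) ⬝ᵥ P p (Bt (a v x)) := by
  have hP := P_of_supp p x h
  have h1 : ∀ v, P p (Bt (a v x)) ⬝ᵥ P p (Bt (a v x)) =
      x ⬝ᵥ x - 2 * (a v (Bt x) ⬝ᵥ x) + P p (a v (Bt x)) ⬝ᵥ P p (a v (Bt x)) := by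
    intro v
    rw [Bt_a, map_sub, hP, sub_dotProduct, dotProduct_sub, dotProduct_sub,
      dotProduct_comm x (P p _), P_adj p _ x, hP]
    ring
  have h2 : Bt x ⬝ᵥ Bt x ≤ ∑ v, P p (a v (Bt x)) ⬝ᵥ P p (a v (Bt x)) := by
    rw [Finset.sum_congr rfl fun v _ => norm_Pa p v (Bt x), Finset.sum_comm, dotProduct]
    refine Finset.sum_le_sum fun s _ => ?_
    by_cases hs : ∃ v ∈ s, p (s.erase v)
    · obtain ⟨v, hv, hp⟩ := hs
      refine le_trans ?_ (Finset.single_le_sum (f := fun v =>
        if v ∈ s then (if p (s.erase v) then Bt x s * Bt x s else 0) else 0)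
        (fun u _ => ?_) (Finset.mem_univ v))
      · simp [hv, hp]
      · split_ifs
        · exact mul_self_nonneg _
        · exact le_rfl
        · exact le_rfl
    · have h0 : Bt x s = 0 := by
        rw [Bt_apply, Finset.sum_apply]
        refine Finset.sum_eq_zero fun v _ => ?_
        rw [ad_apply]
        split_ifs with hv
        · rw [h _ (fun hp => hs ⟨v, hv, hp⟩), mul_zero]
        · rfl
      rw [h0]
      simp
  have h4 : ∑ v, a v (Bt x) ⬝ᵥ x = Bt x ⬝ᵥ Bt x := by
    rw [← sum_dotProduct, ← B_apply, B_adj]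
  rw [Finset.sum_congr rfl fun v _ => h1 v, Finset.sum_add_distrib, Finset.sum_sub_distrib,
    ← Finset.mul_sum, h4]
  have h3 := energy x
  simp only [Finset.sum_const, Finset.card_univ, Fintype.card_fin, nsmul_eq_mul]
  linarith

theorem dot_nonneg (x : Ch n) : 0 ≤ x ⬝ᵥ x :=
  Finset.sum_nonneg fun s _ => mul_self_nonneg (x s)

theorem main (p q : Finset (Fin n) → Prop) [DecidablePred p] [DecidablePred q] (m : ℕ)
    (hm : 0 < m) (hp : ∀ s, p s → s.card = m + 1) (hq : ∀ s, q s → s.card = m)
    (hpq : ∀ t v, v ∉ t → p (insert v t) → q t) (c : ℝ)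
    (hc : ∀ y : Ch n, B (P q y) ⬝ᵥ B (P q y) ≤ c * (y ⬝ᵥ y)) (x : Ch n) :
    B (P p x) ⬝ᵥ B (P p x) ≤ c * (x ⬝ᵥ x) := by
  have he : (Pi.single ∅ 1 : Ch n) ⬝ᵥ (Pi.single ∅ 1 : Ch n) = 1 := by simp
  have hc0 : 0 ≤ c := by
    have := (dot_nonneg _).trans (hc (Pi.single ∅ 1))
    rwa [he, mul_one] at this
  let S : Set ℝ := {C | ∀ x : Ch n, B (P p x) ⬝ᵥ B (P p x) ≤ C * (x ⬝ᵥ x)}
  have hSn : (n : ℝ) ∈ S := by
    intro x
    have h1 := energy (P p x)
    have h2 := dot_nonneg (Bt (P p x))
    have h3 := mul_le_mul_of_nonneg_left (P_le p x) (Nat.cast_nonneg (α := ℝ) n)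
    linarith
  have hS0 : ∀ C ∈ S, 0 ≤ C := by
    intro C hC
    have := (dot_nonneg _).trans (hC (Pi.single ∅ 1))
    rwa [he, mul_one] at this
  have hbdd : BddBelow S := ⟨0, hS0⟩
  set l := sInf S with hl
  have hlS : l ∈ S := by
    intro x
    rcases (dot_nonneg x).eq_or_lt with h0 | h0
    · have := hSn x
      rw [← h0] at this ⊢
      simpa using this
    · rw [← div_le_iff₀ h0]
      refine le_csInf ⟨_, hSn⟩ fun C hC => ?_
      rw [div_le_iff₀ h0]
      exact hC x
  suffices hlc : l ≤ c from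
    (hlS x).trans (mul_le_mul_of_nonneg_right hlc (dot_nonneg x))
  rcases (hS0 l hlS).eq_or_lt with h0 | h0
  · rw [← h0]; exact hc0
  have hsupp : ∀ (z : Ch n) (v : Fin n) (t : Finset (Fin n)), ¬ q t → a v (P p z) t = 0 := by
    intro z v t ht
    rw [a_apply]
    split_ifs with hv
    · rfl
    · rw [P_apply, if_neg (fun h => ht (hpq t v hv h)), mul_zero]
  have hsuppB : ∀ (z : Ch n) (t : Finset (Fin n)), ¬ q t → B (P p z) t = 0 := by
    intro z t ht
    rw [B_apply, Finset.sum_apply]
    exact Finset.sum_eq_zero fun v _ => hsupp z v t ht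
  have hmem : c * (m + 1) / (m + c / l) ∈ S := by
    intro z
    have hpos : 0 < (m : ℝ) + c / l := by positivity
    set x := P p z with hx
    have hxs : ∀ s, ¬ p s → x s = 0 := fun s hs => by rw [hx, P_apply, if_neg hs]
    have hv : ∀ v, a v (B x) ⬝ᵥ a v (B x) ≤
        c * (a v x ⬝ᵥ a v x - (P p (Bt (a v x)) ⬝ᵥ P p (Bt (a v x))) / l) := by
      intro v
      set d := P p (Bt (a v x)) with hd
      have hPd : P p d = d := P_of_supp p d fun s hs => by rw [hd, P_apply, if_neg hs]
      have h1 := hc (a v x - l⁻¹ • B d)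
      have h2 : P q (a v x - l⁻¹ • B d) = a v x - l⁻¹ • B d := by
        refine P_of_supp q _ fun t ht => ?_
        have e1 := hsupp z v t ht
        have e2 := hsuppB (Bt (a v x)) t ht
        simp only [Pi.sub_apply, Pi.smul_apply, smul_eq_mul]
        rw [hx, e1, hd, e2]
        ring
      rw [h2, map_sub, map_smul, B_B, smul_zero, sub_zero, B_a, neg_dotProduct, dotProduct_neg,
        neg_neg] at h1
      refine h1.trans (mul_le_mul_of_nonneg_left ?_ hc0)
      have h3 : B d ⬝ᵥ a v x = d ⬝ᵥ d := by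
        rw [B_adj, ← hPd, P_adj, ← hd, hPd]
      have h4 : B d ⬝ᵥ B d ≤ l * (d ⬝ᵥ d) := by
        have := hlS d
        rwa [hPd] at this
      rw [sub_dotProduct, dotProduct_sub, dotProduct_sub, smul_dotProduct, smul_dotProduct,
        dotProduct_smul, dotProduct_smul, dotProduct_comm (a v x) (B d), h3]
      simp only [smul_eq_mul]
      have h5 : l⁻¹ * (l⁻¹ * (B d ⬝ᵥ B d)) ≤ l⁻¹ * (d ⬝ᵥ d) := by
        refine mul_le_mul_of_nonneg_left ?_ (inv_nonneg.2 h0.le)
        rw [inv_mul_le_iff₀ h0]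
        exact h4
      rw [div_eq_inv_mul]
      linarith
    have hsum := Finset.sum_le_sum fun v (_ : v ∈ Finset.univ) => hv v
    rw [number m (B x) (fun s hs => hsuppB z s (fun h => hs (hq s h))), ← Finset.mul_sum,
      Finset.sum_sub_distrib, number (m + 1) x (fun s hs => hxs s (fun h => hs (hp s h))),
      ← Finset.sum_div] at hsum
    have hk := key p x hxs
    have hk' : B x ⬝ᵥ B x / l ≤ (∑ v, P p (Bt (a v x)) ⬝ᵥ P p (Bt (a v x))) / l :=
      div_le_div_of_nonneg_right hk h0.le
    have hxz : x ⬝ᵥ x ≤ z ⬝ᵥ z := P_le p z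
    rw [div_mul_eq_mul_div, le_div_iff₀ hpos]
    push_cast at hsum
    have e1 : c * (B x ⬝ᵥ B x / l) ≤
        c * ((∑ v, P p (Bt (a v x)) ⬝ᵥ P p (Bt (a v x))) / l) :=
      mul_le_mul_of_nonneg_left hk' hc0
    have e2 : c * (m + 1) * (x ⬝ᵥ x) ≤ c * (m + 1) * (z ⬝ᵥ z) :=
      mul_le_mul_of_nonneg_left hxz (by positivity)
    have e3 : B x ⬝ᵥ B x * (m + c / l) = m * (B x ⬝ᵥ B x) + c * (B x ⬝ᵥ B x / l) := by ring
    rw [e3]
    linarith
  have h1 : l ≤ c * (m + 1) / (m + c / l) := csInf_le hbdd hmem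
  have hpos : 0 < (m : ℝ) + c / l := by positivity
  rw [le_div_iff₀ hpos] at h1
  have h2 : l * (m + c / l) = l * m + c := by field_simp
  rw [h2] at h1
  have hm' : (0 : ℝ) < m := by exact_mod_cast hm
  have h3 : l * m ≤ c * m := by linarith
  exact le_of_mul_le_mul_right h3 hm'

end Pool.Agent.H249Z.Boundary
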