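import Mathlib

set_option autoImplicit false

namespace Pool.Agent.H249Z.IsfA

open Finset

variable {α β : Type} [DecidableEq α] [DecidableEq β]

/-- Number of `s`-element subfamilies of `A` whose distinct members are pairwise related. -/
def I (r : α → α → Prop) [DecidableRel r] (s : ℕ) (A : Finset α) : ℕ :=
  ((A.powersetCard s).filter (fun F => ∀ X ∈ F, ∀ Y ∈ F, X ≠ Y → r X Y)).card

theorem I_zero (r : α → α → Prop) [DecidableRel r] (A : Finset α) : I r 0 A = 1 := by
  unfold I
  rw [powersetCard_zero, filter_singleton]
  simp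

theorem I_empty (r : α → α → Prop) [DecidableRel r] (s : ℕ) : I r (s + 1) ∅ = 0 := by
  unfold I
  rw [powersetCard_eq_empty.2 (by simp)]
  simp

theorem I_mono (r : α → α → Prop) [DecidableRel r] (s : ℕ) {A B : Finset α} (h : A ⊆ B) :
    I r s A ≤ I r s B :=
  card_le_card (filter_subset_filter _ (powersetCard_mono h))

theorem I_insert (r : α → α → Prop) [DecidableRel r] (hs : ∀ a b, r a b → r b a) (s : ℕ)
    {x : α} {A : Finset α} (hx : x ∉ A) :
    I r (s + 1) (insert x A) = I r (s + 1) A + I r s (A.filter (r x)) := by
  unfold I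
  rw [powersetCard_succ_insert hx, filter_union, card_union_of_disjoint]
  · congr 1
    symm
    refine card_bij (fun F _ => insert x F) ?_ ?_ ?_
    · intro F hF
      rw [mem_filter, mem_powersetCard] at hF
      obtain ⟨⟨h1, h2⟩, h3⟩ := hF
      rw [mem_filter, mem_image]
      refine ⟨⟨F, mem_powersetCard.2 ⟨h1.trans (filter_subset _ _), h2⟩, rfl⟩, ?_⟩
      intro X hX Y hY hne
      rw [mem_insert] at hX hY
      rcases hX with rfl | hX <;> rcases hY with rfl | hY
      · exact absurd rfl hne
      · exact (mem_filter.1 (h1 hY)).2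
      · exact hs _ _ (mem_filter.1 (h1 hX)).2
      · exact h3 X hX Y hY hne
    · intro F hF G hG h
      have hF' : x ∉ F := fun h' =>
        hx (mem_filter.1 ((mem_powersetCard.1 (mem_filter.1 hF).1).1 h')).1
      have hG' : x ∉ G := fun h' =>
        hx (mem_filter.1 ((mem_powersetCard.1 (mem_filter.1 hG).1).1 h')).1
      rw [← erase_insert hF', h, erase_insert hG']
    · intro F hF
      rw [mem_filter, mem_image] at hF
      obtain ⟨⟨G, hG, rfl⟩, h3⟩ := hF
      rw [mem_powersetCard] at hG
      refine ⟨G, ?_, rfl⟩
      rw [mem_filter, mem_powersetCard]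
      refine ⟨⟨fun y hy => mem_filter.2 ⟨hG.1 hy, ?_⟩, hG.2⟩, ?_⟩
      · exact h3 x (mem_insert_self _ _) y (mem_insert_of_mem hy)
          (fun h => hx (h ▸ hG.1 hy))
      · intro X hX Y hY hne
        exact h3 X (mem_insert_of_mem hX) Y (mem_insert_of_mem hY) hne
  · rw [disjoint_left]
    intro F h1 h2
    have h1' := (mem_powersetCard.1 (mem_filter.1 h1).1).1
    obtain ⟨G, _, rfl⟩ := mem_image.1 (mem_filter.1 h2).1
    exact hx (h1' (mem_insert_self _ _))

theorem I_one (r : α → α → Prop) [DecidableRel r] (hs : ∀ a b, r a b → r b a) (A : Finset α) :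
    I r 1 A = A.card := by
  induction A using Finset.induction_on with
  | empty => exact I_empty r 0
  | insert x A hx ih => rw [I_insert r hs 0 hx, ih, I_zero, card_insert_of_notMem hx]

theorem I_two (r : α → α → Prop) [DecidableRel r] (hs : ∀ a b, r a b → r b a)
    {x : α} {A : Finset α} (hx : x ∉ A) :
    I r 2 (insert x A) = I r 2 A + (A.filter (r x)).card := by
  rw [I_insert r hs 1 hx, I_one r hs]

theorem I_image (r : α → α → Prop) [DecidableRel r] (hs : ∀ a b, r a b → r b a)
    (q : β → β → Prop) [DecidableRel q] (hq : ∀ a b, q a b → q b a) (f : α → β) (s : ℕ) :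
    ∀ A : Finset α, Set.InjOn f A → (∀ a ∈ A, ∀ b ∈ A, r a b ↔ q (f a) (f b)) →
      I q s (A.image f) = I r s A := by
  induction s with
  | zero => intro A _ _; rw [I_zero, I_zero]
  | succ s ih =>
    intro A
    induction A using Finset.induction_on with
    | empty => intro _ _; rw [image_empty, I_empty, I_empty]
    | insert x A hx ih2 =>
      intro hinj hr
      have hsub : (A : Set α) ⊆ (insert x A : Finset α) := by
        intro y hy; simp only [coe_insert, Set.mem_insert_iff]; exact Or.inr hy
      have hfx : f x ∉ A.image f := by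
        intro h
        obtain ⟨y, hy, h⟩ := mem_image.1 h
        have := hinj (hsub hy) (by simp) h
        exact hx (this ▸ hy)
      rw [image_insert, I_insert q hq s hfx, I_insert r hs s hx,
        ih2 (hinj.mono hsub)
          (fun a ha b hb => hr a (mem_insert_of_mem ha) b (mem_insert_of_mem hb))]
      congr 1
      have : (A.image f).filter (q (f x)) = (A.filter (r x)).image f := by
        rw [filter_image]
        congr 1
        exact filter_congr fun y hy =>
          (hr x (mem_insert_self _ _) y (mem_insert_of_mem hy)).symm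
      rw [this]
      refine ih _ (hinj.mono ?_) ?_
      · exact fun y hy => hsub (mem_filter.1 hy).1
      · intro a ha b hb
        exact hr a (mem_insert_of_mem (mem_filter.1 ha).1) b
          (mem_insert_of_mem (mem_filter.1 hb).1)

end Pool.Agent.H249Z.IsfA
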