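import Mathlib
import Pool.Agent.H249Z.IsfA
import Pool.Agent.H249Z.IsfC

set_option autoImplicit false

namespace Pool.Agent.H249Z.IsfB

open Finset Pool.Agent.H249Z.IsfA Pool.Agent.H249Z.IsfC

/-- masks meet -/
def rm (a b : ℕ) : Prop := a &&& b ≠ 0
/-- masks are disjoint -/
def rd (a b : ℕ) : Prop := a &&& b = 0

instance : DecidableRel rm := fun a b => inferInstanceAs (Decidable (a &&& b ≠ 0))
instance : DecidableRel rd := fun a b => inferInstanceAs (Decidable (a &&& b = 0))

theorem rm_symm : ∀ a b, rm a b → rm b a := by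
  intro a b h; unfold rm at *; rwa [Nat.and_comm]

theorem rd_symm : ∀ a b, rd a b → rd b a := by
  intro a b h; unfold rd at *; rwa [Nat.and_comm]

def pc (a : ℕ) : ℕ := (List.range 7).countP (fun i => a.testBit i)

/-! ### The counting recursion -/

def U : List ℕ → Finset ℕ
  | [] => ∅
  | x :: xs => insert x (insert (127 - x) (U xs))

theorem U_lt : ∀ xs : List ℕ, (∀ x ∈ xs, x < 64) → ∀ z ∈ U xs, z < 128
  | [], _, z, hz => by simp [U] at hz
  | x :: xs, h, z, hz => by
    have hx := h x (by simp)
    simp only [U, mem_insert] at hz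
    rcases hz with rfl | rfl | hz
    · omega
    · omega
    · exact U_lt xs (fun y hy => h y (by simp [hy])) z hz

theorem U_mem : ∀ xs : List ℕ, (∀ x ∈ xs, x < 64) → ∀ z, z < 64 → z ∉ xs →
    z ∉ U xs ∧ 127 - z ∉ U xs
  | [], _, z, _, _ => by simp [U]
  | x :: xs, h, z, hz, hn => by
    have hx := h x (by simp)
    have hne : z ≠ x := fun e => hn (by simp [e])
    have ih := U_mem xs (fun y hy => h y (by simp [hy])) z hz (fun e => hn (by simp [e]))
    simp only [U, mem_insert, not_or]
    refine ⟨⟨hne, by omega, ih.1⟩, by omega, by omega, ih.2⟩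

theorem compl_not : ∀ x < 64, ¬ rm x (127 - x) := by decide +kernel

theorem filt (xs : List ℕ) (h : ∀ x ∈ xs, x < 64) (av y : ℕ) (hy : y < 128) :
    ((U xs).filter (fun z => av.testBit z = true)).filter (rm y) =
      (U xs).filter (fun z => (av &&& nb y).testBit z = true) := by
  rw [filter_filter]
  refine filter_congr fun z hz => ?_
  rw [Nat.testBit_and, nb_spec y hy z (U_lt xs h z hz)]
  simp [rm]

theorem cnt_spec : ∀ xs : List ℕ, (∀ x ∈ xs, x < 64) → xs.Nodup → ∀ av j : ℕ,
    I rm (xs.length + j) ((U xs).filter (fun z => av.testBit z = true)) =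
      if j = 0 then cnt xs av else 0
  | [], _, _, av, j => by
    cases j with
    | zero => simp [I_zero, cnt]
    | succ j => simp [U, I_empty]
  | x :: xs, h, hnd, av, j => by
    have hx := h x (by simp)
    have h' : ∀ y ∈ xs, y < 64 := fun y hy => h y (by simp [hy])
    rw [List.nodup_cons] at hnd
    have ih := cnt_spec xs h' hnd.2
    have hU := U_mem xs h' x hx hnd.1
    have hlen : (x :: xs).length + j = (xs.length + j) + 1 := by simp; omega
    have h0 : I rm (xs.length + j + 1) ((U xs).filter (fun z => av.testBit z = true)) = 0 := by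
      have := ih av (j + 1)
      simpa [Nat.add_assoc] using this
    have hx1 : x ∉ (U xs).filter (fun z => av.testBit z = true) :=
      fun e => hU.1 (mem_filter.1 e).1
    have hx2 : 127 - x ∉ (U xs).filter (fun z => av.testBit z = true) :=
      fun e => hU.2 (mem_filter.1 e).1
    have hx3 : x ∉ insert (127 - x) ((U xs).filter (fun z => av.testBit z = true)) := by
      rw [mem_insert, not_or]; exact ⟨by omega, hx1⟩
    rw [hlen, U, filter_insert, filter_insert, cnt]
    cases b1 : av.testBit x <;> cases b2 : av.testBit (127 - x)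
    · simp [h0]
    · simp only [Bool.false_eq_true, if_false, if_true, cond_false, cond_true]
      rw [I_insert rm rm_symm _ hx2, h0, filt xs h' av _ (by omega), ih]
      simp
    · simp only [Bool.false_eq_true, if_false, if_true, cond_false, cond_true]
      rw [I_insert rm rm_symm _ hx1, h0, filt xs h' av _ (by omega), ih]
      simp
    · simp only [if_true, cond_true]
      rw [I_insert rm rm_symm _ hx3, I_insert rm rm_symm _ hx2, h0, filter_insert,
        if_neg (compl_not x hx), filt xs h' av _ (by omega), filt xs h' av _ (by omega), ih, ih]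
      split_ifs <;> omega

/-! ### The search over graphs with ten edges -/

def Good (S : Finset ℕ) : Prop := ∃ T ∈ fives, ∀ y ∈ S, y &&& T = y

theorem goodb_spec (ch : List ℕ) (h : goodb ch = true) : Good ch.toFinset := by
  unfold goodb at h
  rw [List.any_eq_true] at h
  obtain ⟨T, hT, h⟩ := h
  rw [List.all_eq_true] at h
  exact ⟨T, hT, fun y hy => Nat.eq_of_beq_eq_true (h y (List.mem_toFinset.1 hy))⟩

theorem cntd_spec (x : ℕ) : ∀ ch : List ℕ, ch.Nodup →
    cntd x ch = (ch.toFinset.filter (rd x)).card
  | [], _ => by simp [cntd]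
  | y :: l, h => by
    rw [List.nodup_cons] at h
    have ih := cntd_spec x l h.2
    have hy : y ∉ l.toFinset.filter (rd x) := fun e => h.1 (List.mem_toFinset.1 (mem_filter.1 e).1)
    rw [cntd, List.toFinset_cons, filter_insert]
    by_cases e : x &&& y = 0
    · rw [if_pos (show rd x y from e), card_insert_of_notMem hy, e, ih]; rfl
    · rw [if_neg (show ¬ rd x y from e), ih]
      have : Nat.beq (x &&& y) 0 = false := by
        cases hb : Nat.beq (x &&& y) 0
        · rfl
        · exact absurd (Nat.eq_of_beq_eq_true hb) e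
      rw [this]; rfl

theorem dfs_spec : ∀ (l : List ℕ) (n : ℕ) (ch : List ℕ) (need d : ℕ),
    dfs l n ch need d = true → n = l.length → l.Nodup → ch.Nodup → (∀ x ∈ l, x ∉ ch) →
    d = I rd 2 ch.toFinset → ∀ G : Finset ℕ, G ⊆ l.toFinset → G.card = need →
    I rd 2 (G ∪ ch.toFinset) ≤ 15 → Good (G ∪ ch.toFinset)
  | [], n, ch, need, d, h, _, _, _, _, hd, G, hG, hc, hI => by
    have hG0 : G = ∅ := by simpa using hG
    subst hG0
    rw [empty_union] at hI ⊢
    simp only [dfs, Bool.or_eq_true, Nat.blt_eq, Bool.not_eq_true'] at h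
    rcases h with (h | h) | h
    · omega
    · rw [card_empty] at hc; subst hc; simp at h
    · exact goodb_spec ch h
  | x :: l, n, ch, need, d, h, hn, hl, hch, hdis, hd, G, hG, hc, hI => by
    simp only [dfs, Bool.or_eq_true, Nat.blt_eq] at h
    rw [List.nodup_cons] at hl
    rcases h with (h | h) | h
    · have := I_mono rd 2 (subset_union_right (s₁ := G) (s₂ := ch.toFinset))
      omega
    · have h1 := card_le_card hG
      have h2 := List.toFinset_card_le (x :: l)
      omega
    · cases hb : Nat.beq need 0
      · rw [hb, cond_false, Bool.and_eq_true] at h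
        have hn' : n - 1 = l.length := by simp at hn; omega
        have hx : x ∉ ch := hdis x (by simp)
        by_cases hxG : x ∈ G
        · have e : G ∪ ch.toFinset = G.erase x ∪ (x :: ch).toFinset := by
            rw [List.toFinset_cons, union_insert, ← insert_union, insert_erase hxG]
          rw [e] at hI ⊢
          refine dfs_spec l (n - 1) (x :: ch) (need - 1) _ h.1 hn' hl.2
            (List.nodup_cons.2 ⟨hx, hch⟩) ?_ ?_ _ ?_ ?_ hI
          · intro y hy hy'
            rcases List.mem_cons.1 hy' with rfl | hy'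
            · exact hl.1 hy
            · exact hdis y (by simp [hy]) hy'
          · rw [List.toFinset_cons, I_two rd rd_symm (by simpa using hx), hd, cntd_spec x ch hch]
          · intro y hy
            have h1 := hG (mem_erase.1 hy).2
            rw [List.toFinset_cons, mem_insert] at h1
            exact h1.resolve_left (mem_erase.1 hy).1
          · rw [card_erase_of_mem hxG, hc]
        · refine dfs_spec l (n - 1) ch need d h.2 hn' hl.2 hch
            (fun y hy => hdis y (by simp [hy])) hd G ?_ hc hI
          intro y hy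
          have h1 := hG hy
          rw [List.toFinset_cons, mem_insert] at h1
          exact h1.resolve_left (fun e => hxG (e ▸ hy))
      · rw [hb, cond_true] at h
        have : need = 0 := Nat.eq_of_beq_eq_true hb
        have hG0 : G = ∅ := card_eq_zero.1 (hc.trans this)
        subst hG0
        rw [empty_union]
        exact goodb_spec ch h

theorem graph_good (G : Finset ℕ) (hG : G ⊆ edges.toFinset) (hc : G.card = 10)
    (hI : I rd 2 G ≤ 15) : Good G := by
  have := dfs_spec edges 21 [] 10 0 dfs_run rfl (by decide) List.nodup_nil (by simp)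
    (by simp [I_empty]) G hG hc (by simpa using hI)
  simpa using this

/-! ### Structure of the families with most meeting pairs -/

def Opt (s : ℕ) (M : Finset ℕ) : Prop :=
  ∀ M' : Finset ℕ, M' ⊆ range 128 → M'.card = 109 → I rm s M' ≤ I rm s M

theorem key (M V : Finset ℕ) (hM : M ⊆ range 128) (hc : M.card = 109) (ho : Opt 2 M)
    (hMV : M ⊆ V) (x y : ℕ) (hx : x ∈ M) (hy : y < 128) (hyM : y ∉ M) :
    (V.filter (rd x)).card + 109 ≤ (V.filter (rd y)).card + V.card + 1 := by
  have hy' : y ∉ M.erase x := fun e => hyM (mem_erase.1 e).2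
  have hce : (M.erase x).card = 108 := by rw [card_erase_of_mem hx, hc]
  have h1 := ho (insert y (M.erase x))
    (insert_subset (mem_range.2 hy) ((erase_subset _ _).trans hM))
    (by rw [card_insert_of_notMem hy', hce])
  have h2 : I rm 2 M = I rm 2 (M.erase x) + ((M.erase x).filter (rm x)).card := by
    rw [← I_two rm rm_symm (notMem_erase x M), insert_erase hx]
  rw [I_two rm rm_symm hy', h2] at h1
  have h3 : ∀ z, ((M.erase x).filter (rm z)).card + ((M.erase x).filter (rd z)).card = 108 := by
    intro z
    rw [← hce, ← card_filter_add_card_filter_not (s := M.erase x) (rm z)]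
    congr 2
    exact filter_congr fun w _ => by simp [rm, rd]
  have h4 : ((M.erase x).filter (rd y)).card ≤ (V.filter (rd y)).card :=
    card_le_card (filter_subset_filter _ ((erase_subset _ _).trans hMV))
  have h5 : V.filter (rd x) ⊆ (M.erase x).filter (rd x) ∪ (V \ M.erase x) := by
    intro z hz
    rw [mem_filter] at hz
    rw [mem_union, mem_filter, mem_sdiff]
    by_cases e : z ∈ M.erase x
    · exact Or.inl ⟨e, hz.2⟩
    · exact Or.inr ⟨hz.1, e⟩
  have h6 := (card_le_card h5).trans (card_union_le _ _)
  have h7 : (V \ M.erase x).card + 108 = V.card := by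
    rw [← hce]; exact card_sdiff_add_card_eq_card ((erase_subset _ _).trans hMV)
  have := h3 x
  have := h3 y
  omega

def U2 : Finset ℕ := (range 128).filter (fun a => 2 ≤ pc a)
def U3 : Finset ℕ := (range 128).filter (fun a => 3 ≤ pc a)

theorem cU2 : U2.card = 120 := by decide +kernel
theorem cU3 : U3.card = 99 := by decide +kernel
theorem f1 : ∀ x < 128, x ∉ U2 → 64 ≤ ((range 128).filter (rd x)).card := by decide +kernel
theorem f2 : ∀ x ∈ U2, x < 128 ∧ ((range 128).filter (rd x)).card ≤ 32 := by decide +kernel
theorem f3 : ∀ x ∈ U3, x < 128 ∧ (U2.filter (rd x)).card ≤ 11 := by decide +kernel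
theorem f4 : ∀ x ∈ U2, x ∉ U3 → x ∈ edges.toFinset ∧ (U2.filter (rd x)).card = 26 := by
  decide +kernel
theorem f5 : ∀ x ∈ edges.toFinset, x < 128 ∧ x ∉ U3 ∧ (U3.filter (rm x)).card = 83 := by
  decide +kernel

theorem sub_U2 (M : Finset ℕ) (hM : M ⊆ range 128) (hc : M.card = 109) (ho : Opt 2 M) :
    M ⊆ U2 := by
  intro x hx
  by_contra hn
  obtain ⟨y, hy, hyM⟩ := exists_mem_notMem_of_card_lt_card (s := M) (t := U2)
    (by rw [hc, cU2]; norm_num)
  have h1 := key M (range 128) hM hc ho hM x y hx (f2 y hy).1 hyM
  have h2 := f1 x (mem_range.1 (hM hx)) hn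
  have h3 := (f2 y hy).2
  rw [card_range] at h1
  omega

theorem U3_sub (M : Finset ℕ) (hM : M ⊆ range 128) (hc : M.card = 109) (ho : Opt 2 M) :
    U3 ⊆ M := by
  intro y hy
  by_contra hn
  obtain ⟨x, hx, hxU⟩ := exists_mem_notMem_of_card_lt_card (s := U3) (t := M)
    (by rw [hc, cU3]; norm_num)
  have h0 := sub_U2 M hM hc ho
  have h1 := key M U2 hM hc ho h0 x y hx (f3 y hy).1 hn
  have h2 := (f4 x (h0 hx) hxU).2
  have h3 := (f3 y hy).2
  rw [cU2] at h1
  omega

theorem I_U3 (G : Finset ℕ) (hG : G ⊆ edges.toFinset) :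
    I rm 2 (U3 ∪ G) + I rd 2 G = I rm 2 U3 + 83 * G.card + G.card.choose 2 := by
  induction G using Finset.induction_on with
  | empty => simp [I_empty]
  | insert x G hx ih =>
    have hx' := f5 x (hG (mem_insert_self _ _))
    have hG' : G ⊆ edges.toFinset := (subset_insert _ _).trans hG
    have hxU : x ∉ U3 ∪ G := by rw [mem_union, not_or]; exact ⟨hx'.2.1, hx⟩
    have hdis : Disjoint (U3.filter (rm x)) (G.filter (rm x)) := by
      rw [disjoint_left]
      intro z h1 h2
      exact (f5 z (hG' (mem_filter.1 h2).1)).2.1 (mem_filter.1 h1).1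
    have h3 : (G.filter (rm x)).card + (G.filter (rd x)).card = G.card := by
      rw [← card_filter_add_card_filter_not (s := G) (rm x)]
      congr 2
      exact filter_congr fun w _ => by simp [rm, rd]
    rw [union_insert, I_two rm rm_symm hxU, I_two rd rd_symm hx, filter_union,
      card_union_of_disjoint hdis, hx'.2.2, card_insert_of_notMem hx, Nat.choose_succ_succ' _ 1,
      Nat.choose_one_right]
    have := ih hG'
    simp only [Nat.reduceAdd] at *
    omega

def KK (T : ℕ) : Finset ℕ := edges.toFinset.filter (fun y => y &&& T = y)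

theorem f6 : ∀ T ∈ fives, (KK T).card = 10 := by decide +kernel
theorem f7 : I rd 2 (KK 31) = 15 := by decide +kernel
theorem f8 : U3 ∪ KK 31 ⊆ range 128 ∧ (U3 ∪ KK 31).card = 109 := by decide +kernel

theorem shape (M : Finset ℕ) (hM : M ⊆ range 128) (hc : M.card = 109) (ho : Opt 2 M) :
    ∃ T ∈ fives, M = U3 ∪ KK T := by
  have h2 := sub_U2 M hM hc ho
  have h3 := U3_sub M hM hc ho
  have e : M = U3 ∪ (M \ U3) := (union_sdiff_of_subset h3).symm
  have hG : M \ U3 ⊆ edges.toFinset := fun x hx =>
    (f4 x (h2 (mem_sdiff.1 hx).1) (mem_sdiff.1 hx).2).1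
  have hcG : (M \ U3).card = 10 := by
    have := card_sdiff_add_card_eq_card h3
    rw [cU3, hc] at this
    omega
  have h4 := ho _ f8.1 f8.2
  have h5 := I_U3 _ hG
  have h6 := I_U3 (KK 31) (filter_subset _ _)
  rw [← e, hcG] at h5
  rw [f7, f6 31 (by decide)] at h6
  obtain ⟨T, hT, h⟩ := graph_good _ hG hcG (by omega)
  refine ⟨T, hT, ?_⟩
  have : M \ U3 = KK T := by
    refine eq_of_subset_of_card_le (fun y hy => mem_filter.2 ⟨hG hy, h y hy⟩) ?_
    rw [f6 T hT, hcG]
  rw [← this]; exact e

/-! ### The comparison for subfamilies of size 64 -/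

def S0 : Finset ℕ := U3 ∪ {3, 5, 9, 17, 6, 10, 18}

theorem step (S : Finset ℕ) (e : ℕ) (cl : List ℕ) (av c : ℕ) (he : e ∉ S)
    (h1 : ∀ x ∈ cl, x < 64) (h2 : cl.Nodup) (h3 : cl.length = 63)
    (h4 : S.filter (rm e) = (U cl).filter (fun z => av.testBit z = true)) (h5 : cnt cl av = c) :
    I rm 64 (insert e S) = I rm 64 S + c := by
  rw [I_insert rm rm_symm 63 he, h4]
  have := cnt_spec cl h1 h2 av 0
  rw [h3] at this
  simp only [Nat.add_zero, if_true] at this
  rw [this, h5]

theorem not_opt : ¬ Opt 64 (U3 ∪ KK 31) := by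
  intro h
  have e1 : U3 ∪ KK 31 = insert 24 (insert 20 (insert 12 S0)) := by decide +kernel
  have h1 := h (insert 34 (insert 65 (insert 33 S0))) (by decide +kernel) (by decide +kernel)
  rw [e1, step _ 24 cl45 av45 _ (by decide +kernel) (by decide +kernel) (by decide +kernel) rfl
      (by decide +kernel) cnt45,
    step _ 20 cl35 av35 _ (by decide +kernel) (by decide +kernel) (by decide +kernel) rfl
      (by decide +kernel) cnt35,
    step _ 12 cl34 av34 _ (by decide +kernel) (by decide +kernel) (by decide +kernel) rfl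
      (by decide +kernel) cnt34,
    step _ 34 cl26 av26 _ (by decide +kernel) (by decide +kernel) (by decide +kernel) rfl
      (by decide +kernel) cnt26,
    step _ 65 cl17 av17 _ (by decide +kernel) (by decide +kernel) (by decide +kernel) rfl
      (by decide +kernel) cnt17,
    step _ 33 cl16 av16 _ (by decide +kernel) (by decide +kernel) (by decide +kernel) rfl
      (by decide +kernel) cnt16] at h1
  omega

end Pool.Agent.H249Z.IsfB
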