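import Mathlib

set_option autoImplicit false

namespace Pool.Agent.H249Z.Pyramid

open Finset

abbrev E (n : ℕ) := EuclideanSpace ℝ (Fin n)

/-- Shift graphs have unbounded chromatic number. -/
theorem shift (m : ℕ) : ∀ (κ : Type) [Finite κ], ∃ M : ℕ, ∀ χ : (Fin (m + 1) → Fin M) → κ,
    ∃ j : Fin (m + 2) → Fin M, StrictMono j ∧ χ (j ∘ Fin.succ) = χ (j ∘ Fin.castSucc) := by
  induction m with
  | zero =>
    intro κ _
    cases nonempty_fintype κ
    refine ⟨Fintype.card κ + 1, fun χ => ?_⟩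
    obtain ⟨a, b, hab, h⟩ := Fintype.exists_ne_map_eq_of_card_lt
      (fun a : Fin (Fintype.card κ + 1) => χ (fun _ => a)) (by simp)
    wlog hlt : a < b generalizing a b
    · exact this b a hab.symm h.symm (lt_of_le_of_ne (not_lt.1 hlt) hab.symm)
    refine ⟨![a, b], ?_, ?_⟩
    · rw [Fin.strictMono_iff_lt_succ]
      intro i
      fin_cases i
      simpa using hlt
    · have h1 : (![a, b] ∘ Fin.succ : Fin 1 → _) = fun _ => b := by
        funext i; fin_cases i; rfl
      have h2 : (![a, b] ∘ Fin.castSucc : Fin 1 → _) = fun _ => a := by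
        funext i; fin_cases i; rfl
      rw [h1, h2]; exact h.symm
  | succ m ih =>
    intro κ _
    obtain ⟨M, hM⟩ := ih (Set κ)
    refine ⟨M, fun χ => ?_⟩
    obtain ⟨j, hj, h⟩ := hM (fun T => {a | ∃ t, (∀ l, T l < t) ∧ χ (Fin.snoc T t) = a})
    have hmem : χ j ∈ {a | ∃ t, (∀ l, (j ∘ Fin.castSucc) l < t) ∧
        χ (Fin.snoc (j ∘ Fin.castSucc) t) = a} := by
      refine ⟨j (Fin.last _), fun l => hj (Fin.castSucc_lt_last l), ?_⟩
      congr 1
      funext i
      refine Fin.lastCases ?_ (fun i => ?_) i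
      · simp
      · simp
    have h' : {a | ∃ t, (∀ l, (j ∘ Fin.succ) l < t) ∧ χ (Fin.snoc (j ∘ Fin.succ) t) = a} =
        {a | ∃ t, (∀ l, (j ∘ Fin.castSucc) l < t) ∧
        χ (Fin.snoc (j ∘ Fin.castSucc) t) = a} := h
    rw [← h'] at hmem
    obtain ⟨t, ht, hχ⟩ := hmem
    refine ⟨Fin.snoc j t, ?_, ?_⟩
    · rw [Fin.strictMono_iff_lt_succ]
      intro i
      refine Fin.lastCases ?_ (fun i => ?_) i
      · have := ht (Fin.last _)
        simpa using this
      · have := hj (Fin.castSucc_lt_succ (i := i))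
        rw [Fin.succ_castSucc, Fin.snoc_castSucc, Fin.snoc_castSucc]
        exact this
    · have h1 : ((Fin.snoc j t : Fin (m + 3) → Fin M) ∘ Fin.castSucc) = j := by
        funext i; simp
      have h2 : ((Fin.snoc j t : Fin (m + 3) → Fin M) ∘ Fin.succ) =
          Fin.snoc (j ∘ Fin.succ) t := by
        funext i
        refine Fin.lastCases ?_ (fun i => ?_) i
        · simp
        · simp only [Function.comp_apply, Fin.snoc_castSucc]
          rw [Fin.succ_castSucc, Fin.snoc_castSucc]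
      rw [h1, h2, hχ]

/-- Concatenation of two points. -/
noncomputable def pair {a b : ℕ} (x : E a) (y : E b) : E (a + b) :=
  WithLp.toLp 2 (Fin.append x.ofLp y.ofLp)

theorem dist_pair {a b : ℕ} (x x' : E a) (y y' : E b) :
    dist (pair x y) (pair x' y') ^ 2 = dist x x' ^ 2 + dist y y' ^ 2 := by
  simp only [EuclideanSpace.dist_sq_eq, pair, Fin.sum_univ_add]
  simp

/-- A finite family of copies of the alphabet `A` one of which is always monochromatic on `P`. -/
def Wit {A : Type} (P : A → Prop) (D : A → A → ℝ) (κ : Type) : Prop :=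
  ∃ (N : ℕ) (Φ : Type) (_ : Finite Φ) (φ : Φ → A → E N),
    (∀ f a b, dist (φ f a) (φ f b) ^ 2 = D a b) ∧
    ∀ c : E N → κ, ∃ f, ∀ a b, P a → P b → c (φ f a) = c (φ f b)

theorem product {A : Type} [Finite A] (P : A → Prop) (D : A → A → ℝ)
    (hW : ∀ (κ : Type) [Finite κ], Wit P D κ) (M : ℕ) :
    ∀ (κ : Type) [Finite κ], ∃ (N : ℕ) (Ψ : Type) (_ : Finite Ψ) (ψ : Ψ → (Fin M → A) → E N),
      (∀ f u v, dist (ψ f u) (ψ f v) ^ 2 = ∑ i, D (u i) (v i)) ∧
      ∀ c : E N → κ, ∃ f, ∀ u v, (∀ i, u i = v i ∨ (P (u i) ∧ P (v i))) →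
        c (ψ f u) = c (ψ f v) := by
  induction M with
  | zero =>
    intro κ _
    refine ⟨0, Unit, inferInstance, fun _ _ => 0, fun _ _ _ => by simp, fun c => ⟨(), ?_⟩⟩
    intro u v _
    rfl
  | succ M ih =>
    intro κ _
    obtain ⟨N', Ψ, _, ψ, hψ, hc⟩ := ih (A → κ)
    obtain ⟨N, Φ, _, φ, hφ, hc0⟩ := hW (Ψ × (Fin M → A) → κ)
    refine ⟨N + N', Φ × Ψ, inferInstance,
      fun f u => pair (φ f.1 (u 0)) (ψ f.2 (fun i => u i.succ)), ?_, fun c => ?_⟩
    · intro f u v
      rw [dist_pair, hφ, hψ, Fin.sum_univ_succ]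
    · obtain ⟨f0, hf0⟩ := hc0 (fun e q => c (pair e (ψ q.1 q.2)))
      obtain ⟨f1, hf1⟩ := hc (fun e a => c (pair (φ f0 a) e))
      refine ⟨(f0, f1), fun u v huv => ?_⟩
      have h1 : c (pair (φ f0 (u 0)) (ψ f1 (fun i => u i.succ))) =
          c (pair (φ f0 (v 0)) (ψ f1 (fun i => u i.succ))) := by
        rcases huv 0 with h | h
        · rw [h]
        · exact congrFun (hf0 _ _ h.1 h.2) (f1, fun i => u i.succ)
      have h2 := congrFun (hf1 (fun i => u i.succ) (fun i => v i.succ) (fun i => huv i.succ)) (v 0)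
      exact h1.trans h2

/-- Compactness: finitely many copies suffice. -/
theorem finite_copies {X : Type} [Finite X] [PseudoMetricSpace X]
    (hX : ∀ r : ℕ, ∃ N : ℕ, ∀ c : E N → Fin r,
      ∃ g : X → E N, Isometry g ∧ ∀ x y : X, c (g x) = c (g y))
    (κ : Type) [Finite κ] :
    ∃ (N : ℕ) (Φ : Type) (_ : Finite Φ) (g : Φ → X → E N), (∀ f, Isometry (g f)) ∧
      ∀ c : E N → κ, ∃ f, ∀ x y, c (g f x) = c (g f y) := by
  obtain ⟨r, ⟨e⟩⟩ := Finite.exists_equiv_fin κ
  obtain ⟨N, hN⟩ := hX r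
  let U : {g : X → E N // Isometry g} → Set (E N → Fin r) :=
    fun g => {c | ∀ x y, c (g.1 x) = c (g.1 y)}
  have hU : ∀ g, IsOpen (U g) := by
    intro g
    have : U g = ⋂ x, ⋂ y, {c : E N → Fin r | c (g.1 x) = c (g.1 y)} := by
      ext c; simp [U]
    rw [this]
    refine isOpen_iInter_of_finite fun x => isOpen_iInter_of_finite fun y => ?_
    have hcont : Continuous fun c : E N → Fin r => (c (g.1 x), c (g.1 y)) := by fun_prop
    exact hcont.isOpen_preimage {p | p.1 = p.2} (isOpen_discrete _)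
  obtain ⟨t, ht⟩ := isCompact_univ.elim_finite_subcover U hU (by
    intro c _
    obtain ⟨g, hg, h⟩ := hN c
    exact Set.mem_iUnion.2 ⟨⟨g, hg⟩, h⟩)
  refine ⟨N, t, inferInstance, fun f => f.1.1, fun f => f.1.2, fun c => ?_⟩
  have := ht (Set.mem_univ (fun p => e (c p)))
  simp only [Set.mem_iUnion] at this
  obtain ⟨g, hg, h⟩ := this
  exact ⟨⟨g, hg⟩, fun x y => e.injective (h x y)⟩

theorem norm_sum_eq {X : Type} [Fintype X] {a b : ℕ} (v : X → E a) (w : X → E b)
    (h : ∀ x y, inner ℝ (v x) (v y) = inner ℝ (w x) (w y)) (μ : X → ℝ) :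
    ‖∑ x, μ x • v x‖ ^ 2 = ‖∑ x, μ x • w x‖ ^ 2 := by
  rw [← real_inner_self_eq_norm_sq, ← real_inner_self_eq_norm_sq]
  simp only [sum_inner, inner_sum, real_inner_smul_left, real_inner_smul_right, h]

theorem inner_eq_dist {a : ℕ} (x y o : E a) :
    inner ℝ (x - o) (y - o) = (dist x o ^ 2 + dist y o ^ 2 - dist x y ^ 2) / 2 := by
  have h : x - y = (x - o) - (y - o) := by abel
  rw [dist_eq_norm, dist_eq_norm, dist_eq_norm, h, norm_sub_sq_real (x - o) (y - o)]
  ring

/-- The point with coefficients `μ` and height `t` over a copy `g`. -/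
noncomputable def pt {X : Type} [Fintype X] {a : ℕ} (g : X → E a) (o : X) (μ : X → ℝ) (t : ℝ) :
    E (a + 1) :=
  pair (g o + ∑ x, μ x • (g x - g o)) (WithLp.toLp 2 fun _ => t)

theorem dist_pt {X : Type} [Fintype X] {a : ℕ} (g : X → E a) (o : X) (μ ν : X → ℝ) (s t : ℝ) :
    dist (pt g o μ s) (pt g o ν t) ^ 2 = ‖∑ x, (μ x - ν x) • (g x - g o)‖ ^ 2 + (s - t) ^ 2 := by
  rw [pt, pt, dist_pair]
  congr 1
  · rw [dist_eq_norm]
    congr 2
    simp only [sub_smul, Finset.sum_sub_distrib]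
    abel
  · rw [EuclideanSpace.dist_sq_eq]
    simp [Real.dist_eq]

theorem dist_pt_eq {X : Type} [Fintype X] {a b : ℕ} (g : X → E a) (g' : X → E b)
    (h : ∀ x y, dist (g x) (g y) = dist (g' x) (g' y)) (o : X) (μ ν : X → ℝ) (s t : ℝ) :
    dist (pt g o μ s) (pt g o ν t) ^ 2 = dist (pt g' o μ s) (pt g' o ν t) ^ 2 := by
  rw [dist_pt, dist_pt, norm_sum_eq (fun x => g x - g o) (fun x => g' x - g' o)]
  intro x y
  rw [inner_eq_dist, inner_eq_dist, h, h, h]

theorem pt_single {X : Type} [Fintype X] [DecidableEq X] {a : ℕ} (g : X → E a) (o x : X) :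
    pt g o (Pi.single x 1) 0 = pair (g x) (WithLp.toLp 2 fun _ => 0) := by
  rw [pt]
  congr 1
  rw [Finset.sum_eq_single x]
  · simp
  · intro y _ hy
    simp [Pi.single_eq_of_ne hy]
  · simp

theorem sum_extend {A : Type} {M k : ℕ} (D : A → A → ℝ) (o : A) (ho : D o o = 0)
    (j : Fin k → Fin M) (hj : Function.Injective j) (p q : Fin k → A) :
    ∑ i, D (Function.extend j p (fun _ => o) i) (Function.extend j q (fun _ => o) i) =
      ∑ l, D (p l) (q l) := by
  classical
  symm
  refine Finset.sum_of_injOn j hj.injOn (fun _ _ => Finset.mem_univ _) ?_ ?_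
  · intro i _ hi
    have : ¬ ∃ l, j l = i := by
      rintro ⟨l, rfl⟩
      exact hi ⟨l, by simp, rfl⟩
    rw [Function.extend_apply' _ _ _ this, Function.extend_apply' _ _ _ this, ho]
  · intro l _
    rw [hj.extend_apply, hj.extend_apply]

theorem core {X : Type} [Fintype X] [PseudoMetricSpace X] {d : ℕ} (ρ : X → E d)
    (hρ : Isometry ρ)
    (hX : ∀ r : ℕ, ∃ N : ℕ, ∀ c : E N → Fin r,
      ∃ g : X → E N, Isometry g ∧ ∀ x y : X, c (g x) = c (g y))
    (o : X) (μ : X → ℝ) (H : ℝ) (hH : 0 < H) (r : ℕ) :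
    ∃ N : ℕ, ∀ c : E N → Fin r, ∃ (G : X → E N) (Z : E N),
      (∀ x y, dist (G x) (G y) = dist x y) ∧
      (∀ x, dist (G x) Z ^ 2 = ‖ρ x - ρ o - ∑ y, μ y • (ρ y - ρ o)‖ ^ 2 + H) ∧
      ∀ x, c (G x) = c Z := by
  classical
  set u : E d := ∑ y, μ y • (ρ y - ρ o) with hu
  obtain ⟨m, hm⟩ := exists_nat_ge (‖u‖ ^ 2 / H)
  have hm1 : ‖u‖ ^ 2 ≤ H * (m + 1) := by
    rw [div_le_iff₀ hH] at hm
    nlinarith
  set h' : ℝ := Real.sqrt ((H * (m + 1) - ‖u‖ ^ 2) / (m + 2)) with hh'
  have hh2 : h' ^ 2 = (H * (m + 1) - ‖u‖ ^ 2) / (m + 2) :=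
    Real.sq_sqrt (div_nonneg (by linarith) (by positivity))
  let s : ℕ → ℝ := fun l => 1 - (l : ℝ) / (m + 1)
  let co : X ⊕ Fin (m + 1) → X → ℝ := Sum.elim (fun x => Pi.single x 1) (fun l y => s l * μ y)
  let ht : X ⊕ Fin (m + 1) → ℝ := Sum.elim (fun _ => 0) (fun l => s l * h')
  let D : X ⊕ Fin (m + 1) → X ⊕ Fin (m + 1) → ℝ := fun a b =>
    dist (pt ρ o (co a) (ht a)) (pt ρ o (co b) (ht b)) ^ 2
  let P : X ⊕ Fin (m + 1) → Prop := fun a => ∃ x, a = Sum.inl x
  have hW : ∀ (κ : Type) [Finite κ], Wit P D κ := by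
    intro κ _
    obtain ⟨N, Φ, _, g, hg, hc⟩ := finite_copies hX κ
    refine ⟨N + 1, Φ, inferInstance, fun f a => pt (g f) o (co a) (ht a), ?_, fun c => ?_⟩
    · intro f a b
      refine dist_pt_eq _ _ (fun x y => ?_) _ _ _ _ _
      rw [(hg f).dist_eq, hρ.dist_eq]
    · obtain ⟨f, hf⟩ := hc (fun e => c (pair e (WithLp.toLp 2 fun _ => 0)))
      refine ⟨f, ?_⟩
      rintro _ _ ⟨x, rfl⟩ ⟨y, rfl⟩
      change c (pt (g f) o (Pi.single x 1) 0) = c (pt (g f) o (Pi.single y 1) 0)
      rw [pt_single, pt_single]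
      exact hf x y
  obtain ⟨M, hM⟩ := shift m (Fin r)
  obtain ⟨N, Ψ, _, ψ, hψ, hc⟩ := product P D hW M (Fin r)
  refine ⟨N, fun c => ?_⟩
  obtain ⟨f, hf⟩ := hc c
  obtain ⟨j, hj, hχ⟩ := hM (fun T => c (ψ f (Function.extend T Sum.inr (fun _ => Sum.inl o))))
  have hinj := hj.injective
  have hDself : ∀ a, D a a = 0 := fun a => by simp [D]
  let p : X → Fin (m + 2) → X ⊕ Fin (m + 1) := fun x => Fin.cons (Sum.inl x) Sum.inr
  let q : Fin (m + 2) → X ⊕ Fin (m + 1) := Fin.snoc Sum.inr (Sum.inl o)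
  refine ⟨fun x => ψ f (Function.extend j (p x) (fun _ => Sum.inl o)),
    ψ f (Function.extend j q (fun _ => Sum.inl o)), ?_, ?_, ?_⟩
  · intro x y
    have h1 := hψ f (Function.extend j (p x) (fun _ => Sum.inl o))
      (Function.extend j (p y) (fun _ => Sum.inl o))
    rw [sum_extend D _ (hDself _) j hinj, Fin.sum_univ_succ] at h1
    have h2 : ∑ l : Fin (m + 1), D (p x l.succ) (p y l.succ) = 0 :=
      Finset.sum_eq_zero fun l _ => hDself _
    have h3 : D (p x 0) (p y 0) = dist x y ^ 2 := by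
      change dist (pt ρ o (Pi.single x 1) 0) (pt ρ o (Pi.single y 1) 0) ^ 2 = _
      rw [pt_single, pt_single, dist_pair, hρ.dist_eq]
      simp
    rw [h2, h3, add_zero] at h1
    exact (pow_left_inj₀ dist_nonneg dist_nonneg two_ne_zero).1 h1
  · intro x
    rw [hψ, sum_extend D _ (hDself _) j hinj, Fin.sum_univ_succ]
    have hm0 : (m : ℝ) + 1 ≠ 0 := by positivity
    have h3 : D (p x 0) (q 0) = ‖ρ x - ρ o - u‖ ^ 2 + h' ^ 2 := by
      have hq : q 0 = Sum.inr 0 := by
        change (Fin.snoc Sum.inr (Sum.inl o) : Fin (m + 2) → X ⊕ Fin (m + 1))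
          (Fin.castSucc 0) = _
        rw [Fin.snoc_castSucc]
      rw [hq]
      change dist (pt ρ o (Pi.single x 1) 0) (pt ρ o (fun y => s (0 : ℕ) * μ y) (s (0 : ℕ) * h')) ^ 2 = _
      have hs : s 0 = 1 := by simp [s]
      rw [dist_pt, hs]
      congr 1
      · congr 2
        simp only [sub_smul, Finset.sum_sub_distrib, one_mul]
        rw [Finset.sum_eq_single x]
        · simp [hu]
        · intro y _ hy
          simp [Pi.single_eq_of_ne hy]
        · simp
      · ring
    have h4 : ∀ l : Fin (m + 1), D (p x l.succ) (q l.succ) = (‖u‖ ^ 2 + h' ^ 2) / (m + 1) ^ 2 := by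
      intro l
      have key : ∀ ν : X → ℝ, ∀ t : ℝ, (∑ y, ν y • (ρ y - ρ o) = s (l + 1) • u) → t = s (l + 1) * h' →
          dist (pt ρ o (fun y => s l * μ y) (s l * h')) (pt ρ o ν t) ^ 2 =
            (‖u‖ ^ 2 + h' ^ 2) / (m + 1) ^ 2 := by
        intro ν t hν ht'
        rw [dist_pt, ht']
        have e1 : ∑ y, (s l * μ y - ν y) • (ρ y - ρ o) = (1 / (m + 1) : ℝ) • u := by
          simp only [sub_smul, Finset.sum_sub_distrib, mul_smul]
          rw [← Finset.smul_sum, hν, ← hu, ← sub_smul]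
          congr 1
          simp only [s]
          push_cast
          field_simp
          ring
        rw [e1, norm_smul]
        simp only [s]
        push_cast
        rw [Real.norm_eq_abs, mul_pow, sq_abs]
        field_simp
        ring
      refine Fin.lastCases ?_ (fun i => ?_) l key
      · intro key
        have hq : q (Fin.last m).succ = Sum.inl o := by
          rw [Fin.succ_last]; simp [q]
        rw [hq]
        have hs : s (Fin.last m + 1) = 0 := by
          simp only [s, Fin.val_last]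
          push_cast
          field_simp
          ring
        refine key (Pi.single o 1) 0 ?_ (by rw [hs, zero_mul])
        rw [hs, zero_smul]
        refine Finset.sum_eq_zero fun y _ => ?_
        by_cases hy : y = o
        · simp [hy]
        · simp [Pi.single_eq_of_ne hy]
      · intro key
        have hq : q (Fin.castSucc i).succ = Sum.inr i.succ := by
          rw [Fin.succ_castSucc]
          exact Fin.snoc_castSucc (α := fun _ => X ⊕ Fin (m + 1)) _ _ _
        rw [hq]
        refine key (fun y => s i.succ * μ y) (s i.succ * h') ?_ (by simp)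
        simp only [mul_smul]
        rw [← Finset.smul_sum, ← hu]
        simp
    rw [h3, Finset.sum_congr rfl fun l _ => h4 l]
    simp only [Finset.sum_const, Finset.card_univ, Fintype.card_fin, nsmul_eq_mul]
    push_cast
    rw [hh2]
    field_simp
    ring
  · intro x
    have e1 : Function.extend j (p o) (fun _ => Sum.inl o) =
        Function.extend (j ∘ Fin.succ) Sum.inr (fun _ => Sum.inl o) := by
      have hinj' : Function.Injective (j ∘ Fin.succ) := hinj.comp (Fin.succ_injective _)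
      funext i
      by_cases hi : ∃ l, j l = i
      · obtain ⟨l, rfl⟩ := hi
        rw [hinj.extend_apply]
        refine Fin.cases ?_ (fun l => ?_) l
        · rw [Function.extend_apply']
          · rfl
          · rintro ⟨l, hl⟩
            exact Fin.succ_ne_zero l (hinj hl)
        · exact (hinj'.extend_apply _ _ l).symm
      · rw [Function.extend_apply' _ _ _ hi, Function.extend_apply']
        rintro ⟨l, hl⟩
        exact hi ⟨_, hl⟩
    have e2 : Function.extend j q (fun _ => Sum.inl o) =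
        Function.extend (j ∘ Fin.castSucc) Sum.inr (fun _ => Sum.inl o) := by
      have hinj' : Function.Injective (j ∘ Fin.castSucc) := hinj.comp (Fin.castSucc_injective _)
      funext i
      by_cases hi : ∃ l, j l = i
      · obtain ⟨l, rfl⟩ := hi
        rw [hinj.extend_apply]
        refine Fin.lastCases ?_ (fun l => ?_) l
        · rw [Function.extend_apply']
          · simp [q]
          · rintro ⟨l, hl⟩
            exact Fin.castSucc_ne_last l (hinj hl)
        · have := hinj'.extend_apply Sum.inr (fun _ => (Sum.inl o : X ⊕ Fin (m + 1))) l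
          rw [Function.comp_apply] at this
          rw [this]
          simp [q]
      · rw [Function.extend_apply' _ _ _ hi, Function.extend_apply']
        rintro ⟨l, hl⟩
        exact hi ⟨_, hl⟩
    have e3 : c (ψ f (Function.extend j (p x) (fun _ => Sum.inl o))) =
        c (ψ f (Function.extend j (p o) (fun _ => Sum.inl o))) := by
      refine hf _ _ fun i => ?_
      by_cases hi : ∃ l, j l = i
      · obtain ⟨l, rfl⟩ := hi
        rw [hinj.extend_apply, hinj.extend_apply]
        refine Fin.cases ?_ (fun l => ?_) l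
        · exact Or.inr ⟨⟨x, rfl⟩, ⟨o, rfl⟩⟩
        · exact Or.inl rfl
      · rw [Function.extend_apply' _ _ _ hi, Function.extend_apply' _ _ _ hi]
        exact Or.inl rfl
    change c (ψ f (Function.extend j (p x) (fun _ => Sum.inl o))) =
      c (ψ f (Function.extend j q (fun _ => Sum.inl o)))
    rw [e3, e1, e2]
    exact hχ

end Pool.Agent.H249Z.Pyramid
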